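import Pool.Agent.BEW.StmtsP

/-!
# Squad BEW (MP_be01ff_an), row RLP (proof: helper27): the Laplacian of the radial sines
-/

set_option autoImplicit false

namespace Pool.Agent.BEW.H27

open Set Filter Topology MeasureTheory
open Pool.Agent.BER Pool.Agent.BEW

noncomputable section

/-- The computation for a general solution of `y'' = - m² y`. -/
theorem rlp_aux (d : ℕ) (β m : ℝ) (y y' : ℝ → ℝ) (hβ : 0 < β)
    (hy1 : ∀ x, HasDerivAt y (y' x) x) (hy2 : ∀ x, HasDerivAt y' (-(m ^ 2) * y x) x)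
    (a : ℝ) (ha : a = ((d : ℝ) - 1) / 2) (t : ℝ) (ht : 0 < t) :
    Ld d 0 (fun t => (√t / β) ^ (-a) * y (√t)) t =
      -((m ^ 2 + cd d / t) * ((√t / β) ^ (-a) * y (√t))) := by
  have hmap : ∀ t : ℝ, 0 < t → 0 < √t / β := fun t ht => div_pos (Real.sqrt_pos.2 ht) hβ
  have hx : ∀ t : ℝ, 0 < t → HasDerivAt (fun t => √t / β) (1 / (2 * √t) / β) t := fun t ht =>
    (Real.hasDerivAt_sqrt (ne_of_gt ht)).div_const β
  obtain ⟨F, hF⟩ : ∃ F : ℝ → ℝ, F = fun t => (√t / β) ^ (-a) * y (√t) := ⟨_, rfl⟩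
  obtain ⟨G, hG⟩ : ∃ G : ℝ → ℝ, G = fun t => (1 / (2 * √t)) *
    (-a / β * (√t / β) ^ (-a - 1) * y (√t) + (√t / β) ^ (-a) * y' (√t)) := ⟨_, rfl⟩
  have hFG : ∀ t : ℝ, 0 < t → HasDerivAt F (G t) t := by
    intro t ht
    have h1 : HasDerivAt (fun t => (√t / β) ^ (-a))
        (1 / (2 * √t) / β * (-a) * (√t / β) ^ (-a - 1)) t :=
      (hx t ht).rpow_const (Or.inl (ne_of_gt (hmap t ht)))
    have h2 : HasDerivAt (fun t => y (√t)) (y' (√t) * (1 / (2 * √t))) t :=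
      (hy1 (√t)).comp t (Real.hasDerivAt_sqrt (ne_of_gt ht))
    rw [hF, hG]
    refine (h1.mul h2).congr_deriv ?_
    ring
  have hdF : deriv F =ᶠ[𝓝 t] G := by
    filter_upwards [lt_mem_nhds ht] with u hu
    exact (hFG u hu).deriv
  have hGd : HasDerivAt G ((1 / (2 * √t)) * (1 / (2 * √t)) *
      (-a / β * (-a - 1) / β * (√t / β) ^ (-a - 1 - 1) * y (√t) +
        2 * (-a / β) * (√t / β) ^ (-a - 1) * y' (√t) +
        (√t / β) ^ (-a) * (-(m ^ 2) * y (√t))) -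
      (1 / (4 * √t ^ 3)) *
        (-a / β * (√t / β) ^ (-a - 1) * y (√t) + (√t / β) ^ (-a) * y' (√t))) t := by
    have hst : 0 < √t := Real.sqrt_pos.2 ht
    have h0 : HasDerivAt (fun t => (1 / (2 * √t))) (- (1 / (4 * √t ^ 3))) t := by
      have h := (((Real.hasDerivAt_sqrt (ne_of_gt ht)).const_mul 2).inv
        (by positivity : (2 * √t) ≠ 0))
      have e : (fun t => (1 / (2 * √t))) = fun t => (2 * √t)⁻¹ := by
        funext u
        rw [one_div]
      rw [e]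
      refine h.congr_deriv ?_
      field_simp
      ring
    have h1 : HasDerivAt (fun t => (√t / β) ^ (-a))
        (1 / (2 * √t) / β * (-a) * (√t / β) ^ (-a - 1)) t :=
      (hx t ht).rpow_const (Or.inl (ne_of_gt (hmap t ht)))
    have h1' : HasDerivAt (fun t => (√t / β) ^ (-a - 1))
        (1 / (2 * √t) / β * (-a - 1) * (√t / β) ^ (-a - 1 - 1)) t :=
      (hx t ht).rpow_const (Or.inl (ne_of_gt (hmap t ht)))
    have h2 : HasDerivAt (fun t => y (√t)) (y' (√t) * (1 / (2 * √t))) t :=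
      (hy1 (√t)).comp t (Real.hasDerivAt_sqrt (ne_of_gt ht))
    have h3 : HasDerivAt (fun t => y' (√t)) ((-(m ^ 2) * y (√t)) * (1 / (2 * √t))) t :=
      (hy2 (√t)).comp t (Real.hasDerivAt_sqrt (ne_of_gt ht))
    rw [hG]
    refine (h0.mul (((h1'.const_mul (-a / β)).mul h2).add (h1.mul h3))).congr_deriv ?_
    simp only [Pi.add_apply, Pi.mul_apply]
    ring
  have e1 : deriv F t = G t := (hFG t ht).deriv
  have e2 : deriv (deriv F) t = deriv G t := hdF.deriv_eq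
  show 4 * t * deriv (deriv (fun t => (√t / β) ^ (-a) * y (√t))) t +
    2 * d * deriv (fun t => (√t / β) ^ (-a) * y (√t)) t +
    0 * ((√t / β) ^ (-a) * y (√t)) = _
  rw [← hF, e1, e2, hGd.deriv, hG]
  have hst : 0 < √t := Real.sqrt_pos.2 ht
  have hss : √t * √t = t := Real.mul_self_sqrt ht.le
  have hm := hmap t ht
  have p1 : (√t / β) ^ (-a - 1) = (√t / β) ^ (-a) / (√t / β) := Real.rpow_sub_one (ne_of_gt hm) _
  have p2 : (√t / β) ^ (-a - 1 - 1) = (√t / β) ^ (-a) / (√t / β) / (√t / β) := by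
    rw [Real.rpow_sub_one (ne_of_gt hm), p1]
  have hc : cd d = a * (a - 1) := by
    rw [ha]
    show ((d : ℝ) - 1) * (d - 3) / 4 = _
    ring
  have hda : (d : ℝ) = 2 * a + 1 := by rw [ha]; ring
  simp only [p1, p2, hc, hda]
  generalize (√t / β) ^ (-a) = P
  generalize y (√t) = Y
  generalize y' (√t) = Z
  obtain ⟨r, hr⟩ : ∃ r, r = √t := ⟨_, rfl⟩
  rw [← hr] at hst hss ⊢
  rw [← hss]
  have hb0 : β ≠ 0 := ne_of_gt hβ
  have hr0 : r ≠ 0 := ne_of_gt hst
  field_simp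
  ring

/-- row RLP -/
theorem rlp : RlpStmt := by
  intro d β k hd hβ
  have hsin : ∀ x : ℝ, HasDerivAt (fun r : ℝ => Real.sqrt (2 / Real.pi) *
      Real.sin (((k : ℝ) + 1) * (r - β)))
      (Real.sqrt (2 / Real.pi) * (Real.cos (((k : ℝ) + 1) * (x - β)) * ((k : ℝ) + 1))) x := by
    intro x
    have h1 : HasDerivAt (fun r : ℝ => ((k : ℝ) + 1) * (r - β)) ((k : ℝ) + 1) x := by
      have h := ((hasDerivAt_id x).sub_const β).const_mul ((k : ℝ) + 1)
      simpa using h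
    exact (h1.sin).const_mul _
  have hcos : ∀ x : ℝ, HasDerivAt (fun r : ℝ => Real.sqrt (2 / Real.pi) *
      (Real.cos (((k : ℝ) + 1) * (r - β)) * ((k : ℝ) + 1)))
      (-(((k : ℝ) + 1) ^ 2) * (Real.sqrt (2 / Real.pi) *
        Real.sin (((k : ℝ) + 1) * (x - β)))) x := by
    intro x
    have h1 : HasDerivAt (fun r : ℝ => ((k : ℝ) + 1) * (r - β)) ((k : ℝ) + 1) x := by
      have h := ((hasDerivAt_id x).sub_const β).const_mul ((k : ℝ) + 1)
      simpa using h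
    refine (((h1.cos).mul_const ((k : ℝ) + 1)).const_mul _).congr_deriv ?_
    ring
  constructor
  · have hcs : ContDiffOn ℝ ((⊤ : ℕ∞) : WithTop ℕ∞) (fun t => √t / β) (Ioi 0) := by
      intro t ht
      exact ((Real.contDiffAt_sqrt (ne_of_gt ht)).div_const β).contDiffWithinAt
    have hcr : ContDiffOn ℝ ((⊤ : ℕ∞) : WithTop ℕ∞) (fun t : ℝ => √t) (Ioi 0) := by
      intro t ht
      exact (Real.contDiffAt_sqrt (ne_of_gt ht)).contDiffWithinAt
    show ContDiffOn ℝ ((⊤ : ℕ∞) : WithTop ℕ∞) (fun t => (√t / β) ^ (-(((d : ℝ) - 1) / 2)) *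
      (Real.sqrt (2 / Real.pi) * Real.sin (((k : ℝ) + 1) * (√t - β)))) (Ioi 0)
    refine ContDiffOn.mul ?_ ?_
    · intro t ht
      exact (hcs t ht).rpow_const_of_ne (ne_of_gt (div_pos (Real.sqrt_pos.2 ht) hβ))
    · exact contDiffOn_const.mul
        (Real.contDiff_sin.comp_contDiffOn (contDiffOn_const.mul (hcr.sub contDiffOn_const)))
  · intro t ht
    exact rlp_aux d β ((k : ℝ) + 1) _ _ hβ hsin hcos _ rfl t ht

end

end Pool.Agent.BEW.H27
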